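import Pool.Agent.Q165.Genus3Count

set_option autoImplicit false

/-!
# Genus `g` partitions of `{1, ..., n}` into three blocks

A partition of `Fin n` is a `Setoid (Fin n)`; its number of blocks is `Nat.card (Quotient r)`.
`Q165.Genus3.IsBlockPerm r τ` says that `τ` traverses every block of `r` in increasing order
(`τ a` is the next larger element of the block of `a`, or `a` is the largest element of its
block and `τ a` is the smallest one).  `Q165.Cyc.numCycles` is the number of cycles of a
permutation, fixed points included (the number of classes of the relation `SameCycle`),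
`finRotate n` is the long cycle, and `Q165.Genus3.HasGenus r g` says that
`k + c(τ⁻¹ σ) = n + 1 - 2 g`.  `Q165.Genus3.S n g` is the number of partitions of `Fin n` into
three blocks which have genus `g`.
-/

namespace Pool.Agent.Results.MP_752880_co.ThreeBlocks

open Equiv Q165.Genus3

/-- For every partition the permutation `τ` exists and is unique, and for all `n ≥ 1` and all
`g` the number of genus `g` partitions of `{1, ..., n}` into three blocks is
`(4^(g+1) - 1) (n - g - 1) / (3 (g + 2)) * binomial (n, 2 g + 3)`. -/
theorem result :
    (∀ (n : ℕ) (r : Setoid (Fin n)), ∃! τ : Perm (Fin n), IsBlockPerm r τ) ∧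
    ∀ n g : ℕ, 1 ≤ n →
      (S n g : ℚ) = (4 ^ (g + 1) - 1) * ((n : ℚ) - g - 1) / (3 * (g + 2)) *
        (n.choose (2 * g + 3) : ℚ) := by
  refine ⟨fun n r => ?_, fun n g hn => S_closed n g hn⟩
  obtain ⟨τ, hτ⟩ := exists_blockPerm r
  exact ⟨τ, hτ, fun τ' hτ' => blockPerm_unique r τ' τ hτ' hτ⟩

end Pool.Agent.Results.MP_752880_co.ThreeBlocks
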